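import Mathlib

open scoped Matrix.Norms.L2Operator ComplexConjugate

namespace Pool.Agent.Results.MP_dba3a1_an.NotFull

section
variable {A B : Type} [CStarAlgebra A] [CStarAlgebra B]

/-- `e` is the annihilating projection of `S` in `M`. -/
def IsRann (M S : Set A) (e : A) : Prop :=
  e ∈ M ∧ IsStarProjection e ∧ ∀ y ∈ M, (∀ x ∈ S, x * y = 0) ↔ ∃ z ∈ M, y = e * z

variable (A) in
def IsAW : Prop := ∀ S : Set A, ∃ e, IsRann Set.univ S e

variable (A) in
/-- The submonoid generated by the projections. -/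
def PM : Set A := Submonoid.closure {p : A | IsStarProjection p}

/-- `φ` restricts to a morphism of Baer `*`-semigroups `P(A) → P(B)`. -/
def IsBaerHom (φ : A → B) : Prop :=
  (∀ x ∈ PM A, φ x ∈ PM B) ∧ (∀ x ∈ PM A, ∀ y ∈ PM A, φ (x * y) = φ x * φ y) ∧
    (∀ x ∈ PM A, φ (star x) = star (φ x)) ∧
    ∀ S ⊆ PM A, ∀ e, IsRann (PM A) S e → IsRann (PM B) (φ '' S) (φ e)

end

abbrev M := Matrix (Fin 2) (Fin 2) ℂ

def c (x : M) : M := x.map conj

lemma c_mul (x y : M) : c (x * y) = c x * c y := Matrix.map_mul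
lemma c_star (x : M) : c (star x) = star (c x) := rfl
lemma c_c (x : M) : c (c x) = x := by ext; simp [c]
lemma c_zero : c 0 = 0 := by ext; simp [c]
lemma c_proj {p : M} (h : IsStarProjection p) : IsStarProjection (c p) :=
  ⟨by rw [IsIdempotentElem, ← c_mul, h.1], by rw [IsSelfAdjoint, ← c_star, h.2]⟩

lemma c_mem {x : M} (h : x ∈ PM M) : c x ∈ PM M := by
  induction h using Submonoid.closure_induction with
  | mem x hx => exact Submonoid.subset_closure (c_proj hx)
  | one => rw [show c 1 = 1 from Matrix.map_one _ (map_zero _) (map_one _)]; exact one_mem _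
  | mul x y _ _ hx hy => rw [c_mul]; exact mul_mem hx hy

lemma aw : IsAW M := fun S => by
  let T := Matrix.toEuclideanCLM (n := Fin 2) (𝕜 := ℂ)
  let K : Submodule ℂ (EuclideanSpace ℂ (Fin 2)) := ⨅ x ∈ S, (T x).ker
  refine ⟨T.symm K.starProjection, trivial, (isStarProjection_starProjection (U := K)).map T.symm,
    fun y _ => ⟨fun h => ⟨y, trivial, EquivLike.injective T ?_⟩, ?_⟩⟩
  · rw [map_mul, T.apply_symm_apply]
    refine ContinuousLinearMap.ext fun v => (Submodule.starProjection_eq_self_iff.2 ?_).symm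
    refine (Submodule.mem_iInf _).2 fun x => (Submodule.mem_iInf _).2 fun hx => ?_
    show (T x * T y) v = 0
    rw [← map_mul, h x hx, map_zero]; rfl
  · rintro ⟨z, -, rfl⟩ x hx
    refine EquivLike.injective T ?_
    rw [map_mul, map_mul, T.apply_symm_apply, map_zero]
    exact ContinuousLinearMap.ext fun v => (Submodule.mem_iInf _).1 ((Submodule.mem_iInf _).1
      (K.starProjection_apply_mem (T z v)) x) hx

theorem result : ∃ (A : Type) (_ : CStarAlgebra A) (φ : A → A), IsAW A ∧ IsBaerHom φ ∧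
    ¬ ∃ f : A →⋆ₙₐ[ℂ] A, ∀ x ∈ PM A, f x = φ x := by
  refine ⟨M, inferInstance, c, aw, ⟨fun _ => c_mem, fun x _ y _ => c_mul x y,
    fun x _ => c_star x, fun S _ e ⟨h1, h2, h3⟩ => ⟨c_mem h1, c_proj h2, fun y hy => ?_⟩⟩, ?_⟩
  · rw [Set.forall_mem_image]
    refine ⟨fun h => ?_, ?_⟩
    · obtain ⟨z, hz, h4⟩ := (h3 _ (c_mem hy)).1 fun x hx => by
        rw [← c_c x, ← c_mul, h hx, c_zero]
      exact ⟨c z, c_mem hz, by rw [← c_mul, ← h4, c_c]⟩
    · rintro ⟨z, hz, rfl⟩ x hx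
      rw [← c_c z, ← c_mul, ← c_mul, (h3 _ (mul_mem h1 (c_mem hz))).2 ⟨_, c_mem hz, rfl⟩ x hx,
        c_zero]
  rintro ⟨f, hf⟩
  have hp : ∀ a : M, a * a = a → star a = a → a ∈ PM M := fun a h1 h2 =>
    Submonoid.subset_closure ⟨h1, h2⟩
  have h1 := hp !![1, 0; 0, 0] (by ext i j; fin_cases i <;> fin_cases j <;> simp)
    (by ext i j; fin_cases i <;> fin_cases j <;> simp)
  have h2 := hp !![1 / 2, 1 / 2; 1 / 2, 1 / 2] (by norm_num)
    (by ext i j; fin_cases i <;> fin_cases j <;> simp)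
  have h3 := hp !![1 / 2, -Complex.I / 2; Complex.I / 2, 1 / 2] (by
    ext i j; fin_cases i <;> fin_cases j <;> simp [Complex.ext_iff] <;> norm_num)
    (by ext i j; fin_cases i <;> fin_cases j <;> simp [neg_div])
  have h4 := hf _ (mul_mem (mul_mem (mul_mem h1 h3) h2) h1)
  have h5 : (!![1, 0; 0, 0] * !![1 / 2, -Complex.I / 2; Complex.I / 2, 1 / 2] *
      !![1 / 2, 1 / 2; 1 / 2, 1 / 2] * !![1, 0; 0, 0] : M)
      = ((1 - Complex.I) / 4) • !![1, 0; 0, 0] := by
    ext i j; fin_cases i <;> fin_cases j <;> simp; ring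
  rw [h5, map_smul, hf _ h1] at h4
  have := congrArg Complex.im (congrFun (congrFun h4 0) 0)
  norm_num [c, map_ofNat] at this

end Pool.Agent.Results.MP_dba3a1_an.NotFull
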